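import Mathlib

/-!
# The rank-nullity ring of a matroid (definitions)

The Chow ring `A^*(U_{n,n})` of the permutohedral variety, the elements `y_{i,j}`, the rank-nullity ring and
its Hilbert function, as in problem MP_d1a043_co.
-/

namespace Pool.Agent.Helper46.RankNull

open MvPolynomial

/-- The nonempty subsets of `[n]` (index set of the variables `x_S`). -/
abbrev NSet (n : ℕ) : Type := {S : Finset (Fin n) // S.Nonempty}

/-- The generators of the defining ideal of the Chow ring of the permutohedral variety: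
`x_S x_T` for incomparable `S, T`, and `∑_{S ∋ e} x_S` for `e ∈ [n]`. -/
def chowRels (n : ℕ) : Set (MvPolynomial (NSet n) ℤ) :=
  {f | ∃ S T : NSet n, ¬ S.1 ⊆ T.1 ∧ ¬ T.1 ⊆ S.1 ∧ f = X S * X T} ∪
  {f | ∃ e : Fin n, f = ∑ S : NSet n with e ∈ S.1, X S}

/-- The Chow ring `A^*(U_{n,n})` of the permutohedral variety. -/
def Chow (n : ℕ) : Type := MvPolynomial (NSet n) ℤ ⧸ Ideal.span (chowRels n)

noncomputable instance instCommRingChow (n : ℕ) : CommRing (Chow n) :=
  Ideal.Quotient.commRing (Ideal.span (chowRels n))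

/-- The quotient map: a polynomial in the variables `x_S` gives an element of the Chow ring. -/
noncomputable def toChow (n : ℕ) : MvPolynomial (NSet n) ℤ →+* Chow n :=
  Ideal.Quotient.mk (Ideal.span (chowRels n))

/-- The graded piece `A^d(U_{n,n})`: images of the homogeneous polynomials of degree `d` in the `x_S`. -/
noncomputable def degPart (n d : ℕ) : AddSubgroup (Chow n) :=
  (homogeneousSubmodule (NSet n) ℤ d).toAddSubgroup.map (toChow n).toAddMonoidHom

open Classical in
/-- The element `y_{i,j} = ∑ x_S`, over the nonempty `S` with `rk S = i` and `|S| - rk S = j`. -/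
noncomputable def y {n : ℕ} (M : Matroid (Fin n)) (i j : ℕ) : Chow n :=
  ∑ S : NSet n with M.eRk (S.1 : Set (Fin n)) = (i : ℕ∞) ∧ S.1.card = i + j, toChow n (X S)

/-- The rank-nullity ring `R^*(M)`: the subring of the Chow ring generated by the `y_{i,j}`, `0 ≤ i, j ≤ n`. -/
noncomputable def rankNullityRing {n : ℕ} (M : Matroid (Fin n)) : Subring (Chow n) :=
  Subring.closure {f | ∃ i j : ℕ, i ≤ n ∧ j ≤ n ∧ f = y M i j}

/-- The graded piece `R^d(M) = R^*(M) ∩ A^d(U_{n,n})`. -/
noncomputable def piece {n : ℕ} (M : Matroid (Fin n)) (d : ℕ) : AddSubgroup (Chow n) :=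
  (rankNullityRing M).toAddSubgroup ⊓ degPart n d

/-- The Hilbert function `h_M(d)`, the rank of `R^d(M)` over `ℤ`. -/
noncomputable def hilb {n : ℕ} (M : Matroid (Fin n)) (d : ℕ) : ℕ :=
  Module.finrank ℤ (piece M d)

end Pool.Agent.Helper46.RankNull
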