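import Pool.Agent.Helper46.RankNull.Mat

/-!
# Log-concavity of the Hilbert function of rank-nullity rings fails
-/

namespace Pool.Agent.Helper46.RankNull

open Finset

section Params

variable (s K N : ℕ)

/-- width of the `k`-th rectangle -/
def tt (k : ℕ) : ℕ := 2 ^ (N + k)

/-- height of the `k`-th rectangle -/
def jj (k : ℕ) : ℕ := if k = 0 then 2 ^ N else 2 ^ (N - s - k)

/-- rank of the matroid -/
def rr : ℕ := 2 ^ (N + K + 1)

lemma tt_mono {a b : ℕ} (h : a ≤ b) : tt N a ≤ tt N b :=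
  Nat.pow_le_pow_right (by norm_num) (by omega)

lemma tt_le_rr {k : ℕ} (hk : k ≤ K) : 2 * tt N k ≤ rr K N := by
  unfold tt rr
  rw [← pow_succ']
  exact Nat.pow_le_pow_right (by norm_num) (by omega)

lemma tt_pos (k : ℕ) : 0 < tt N k := Nat.pow_pos (by norm_num)

lemma jj_pos (k : ℕ) : 0 < jj s N k := by
  unfold jj
  split_ifs <;> exact Nat.pow_pos (by norm_num)

lemma jj_le (k : ℕ) : jj s N k ≤ 2 ^ N := by
  unfold jj
  split_ifs
  · exact le_rfl
  · exact Nat.pow_le_pow_right (by norm_num) (by omega)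

lemma tt_jj_zero : tt N 0 * jj s N 0 = 2 ^ (2 * N) := by
  unfold tt jj
  rw [if_pos rfl, ← pow_add]
  congr 1
  omega

lemma tt_jj_succ {k : ℕ} (hk : k + 1 ≤ K) (hN : s + K ≤ N) : tt N (k + 1) * jj s N (k + 1) = 2 ^ (2 * N - s) := by
  unfold tt jj
  rw [if_neg (by omega), ← pow_add]
  congr 1
  omega

lemma tt_jj_strip {k : ℕ} (hk : k + 1 ≤ K) (hN : s + K ≤ N) :
    tt N k * jj s N (k + 1) = 2 ^ (2 * N - s - 1) := by
  unfold tt jj
  rw [if_neg (by omega), ← pow_add]
  congr 1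
  omega

lemma tt_succ (k : ℕ) : tt N (k + 1) = 2 * tt N k := by
  unfold tt
  rw [← pow_succ']
  rfl

/-- capacities -/
def ccap : Option (Fin (K + 1)) → ℕ
  | none => rr K N
  | some k => rr K N - tt N k

/-- sizes of the colour classes -/
def csize : Option (Fin (K + 1)) → ℕ
  | none => rr K N
  | some k => rr K N - tt N k + jj s N k

/-- size of the ground set -/
def nn : ℕ := ∑ c, csize s K N c

lemma nn_le (hs : K + 2 ≤ 2 ^ (K + 1)) : nn s K N + 1 ≤ 2 ^ (N + 2 * K + 3) := by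
  unfold nn
  rw [Fintype.sum_option]
  have h1 : ∑ k : Fin (K + 1), csize s K N (some k) ≤ ∑ k : Fin (K + 1), 2 * rr K N := by
    apply Finset.sum_le_sum
    intro k _
    show rr K N - tt N k + jj s N k ≤ _
    have h2 := jj_le s N k
    have h3 : (2 : ℕ) ^ N ≤ rr K N := by
      unfold rr
      exact Nat.pow_le_pow_right (by norm_num) (by omega)
    omega
  rw [Finset.sum_const, Finset.card_univ, Fintype.card_fin, smul_eq_mul] at h1
  have h4 : 1 ≤ rr K N := Nat.one_le_two_pow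
  have h5 : csize s K N none = rr K N := rfl
  rw [h5]
  calc rr K N + ∑ k : Fin (K + 1), csize s K N (some k) + 1 ≤ (K + 2) * (2 * rr K N) := by nlinarith
    _ ≤ 2 ^ (K + 1) * (2 * rr K N) := Nat.mul_le_mul_right _ hs
    _ = 2 ^ (N + 2 * K + 3) := by
        unfold rr
        rw [← pow_succ', ← pow_add]
        congr 1
        omega

end Params

/-- The rectangles. -/
def rect (s K N k : ℕ) : Finset (ℕ × ℕ) := Finset.Ico (rr K N - tt N k) (rr K N) ×ˢ Finset.Ioc 0 (jj s N k)

lemma rect_card {s K N k : ℕ} (hk : k ≤ K) : (rect s K N k).card = tt N k * jj s N k := by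
  unfold rect
  rw [Finset.card_product, Nat.card_Ico, Nat.card_Ioc]
  have := tt_le_rr K N hk
  have h2 : rr K N - (rr K N - tt N k) = tt N k := by omega
  rw [h2, Nat.sub_zero]

/-- the strips -/
def strip (s K N k : ℕ) : Finset (ℕ × ℕ) :=
  Finset.Ico (rr K N - tt N (k + 1)) (rr K N - tt N k) ×ˢ Finset.Ioc 0 (jj s N (k + 1))

lemma strip_card {s K N k : ℕ} (hk : k + 1 ≤ K) (hN : s + K ≤ N) :
    (strip s K N k).card = 2 ^ (2 * N - s - 1) := by
  unfold strip
  rw [Finset.card_product, Nat.card_Ico, Nat.card_Ioc, Nat.sub_zero, ← tt_jj_strip s K N hk hN]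
  have h1 := tt_le_rr K N hk
  have h2 := tt_succ N k
  congr 1
  omega

lemma strip_disj {s K N k l : ℕ} (h : k < l) : Disjoint (strip s K N k) (strip s K N l) := by
  rw [Finset.disjoint_left]
  rintro ⟨i, j⟩ h1 h2
  unfold strip at h1 h2
  rw [Finset.mem_product, Finset.mem_Ico] at h1 h2
  have := tt_mono N (show k + 1 ≤ l from h)
  have a := h1.1.1
  have b := h2.1.2
  simp only at a b
  omega

/-- blocks inside the square rectangle -/
def blk (b q m : ℕ) : Finset (ℕ × ℕ) :=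
  Finset.Ico (b + m * q) (b + (m + 1) * q) ×ˢ Finset.Ioc (m * q) ((m + 1) * q)

lemma blk_card (b q m : ℕ) : (blk b q m).card = q * q := by
  unfold blk
  rw [Finset.card_product, Nat.card_Ico, Nat.card_Ioc]
  have h1 : (m + 1) * q = m * q + q := by ring
  rw [h1]
  congr 1
  · omega
  · omega

section Main

variable {s K N : ℕ} {n : ℕ} {col : Fin n → Option (Fin (K + 1))}

lemma two_bound (hcol : ∀ c, (part col Finset.univ c).card = csize s K N c) (hN : s + K ≤ N) :
    hilb (pmat col (ccap K N) (rr K N)) 2 ≤ 2 ^ (4 * N) + K * 2 ^ (4 * N - 2 * s) + 2 * (n + 1) ^ 3 := by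
  classical
  set R := rr K N with hR
  set P : Finset ((ℕ × ℕ) × (ℕ × ℕ)) :=
    ((Finset.univ : Finset (Fin (K + 1))).biUnion fun k => rect s K N k ×ˢ rect s K N k) ∪
    ((Finset.range (n + 1) ×ˢ Finset.range (n + 1)) ×ˢ ({R} ×ˢ Finset.range (n + 1))) ∪
    ((Finset.range (n + 1) ×ˢ {0}) ×ˢ (Finset.range (n + 1) ×ˢ Finset.range (n + 1))) with hP
  have hle : hilb (pmat col (ccap K N) R) 2 ≤ P.card := by
    apply hilb_two_le
    intro S S' hSne hSS c c' hc hc'
    have hcn : c.1 + c.2 ≤ n := by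
      rw [← hc.2]
      simpa using Finset.card_le_univ S
    have hcn' : c'.1 + c'.2 ≤ n := by
      rw [← hc'.2]
      simpa using Finset.card_le_univ S'
    by_cases h1 : c'.1 = R
    · rw [hP]
      apply Finset.mem_union_left
      apply Finset.mem_union_right
      simp only [Finset.mem_product, Finset.mem_range, Finset.mem_singleton]
      omega
    by_cases h2 : c.2 = 0
    · rw [hP]
      apply Finset.mem_union_right
      simp only [Finset.mem_product, Finset.mem_range, Finset.mem_singleton]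
      omega
    have hst := struct (K := K + 1) col (ccap K N) R (fun k => jj s N k) rfl (hcol none).le
      (fun k => (hcol (some k)).le) ?_ S S' hSS c c' hc hc' h1 h2
    · obtain ⟨g1, g2, g3, k, g4, g5⟩ := hst
      rw [hP]
      apply Finset.mem_union_left
      apply Finset.mem_union_left
      rw [Finset.mem_biUnion]
      refine ⟨k, Finset.mem_univ _, ?_⟩
      have g4' : R - tt N k ≤ c.1 := g4
      unfold rect
      simp only [Finset.mem_product, Finset.mem_Ico, Finset.mem_Ioc]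
      rw [← hR]
      omega
    · intro k l hkl
      show R ≤ (R - tt N k) + (R - tt N l)
      have hk : (k : ℕ) ≤ K := Nat.lt_succ_iff.1 k.2
      have hl : (l : ℕ) ≤ K := Nat.lt_succ_iff.1 l.2
      have a := tt_le_rr K N hk
      have b := tt_le_rr K N hl
      rw [← hR] at a b
      omega
  refine hle.trans ?_
  have c1 : ((Finset.univ : Finset (Fin (K + 1))).biUnion fun k => rect s K N k ×ˢ rect s K N k).card ≤
      2 ^ (4 * N) + K * 2 ^ (4 * N - 2 * s) := by
    refine Finset.card_biUnion_le.trans ?_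
    have hterm : ∀ k : Fin (K + 1), (rect s K N k ×ˢ rect s K N k).card = (tt N k * jj s N k) ^ 2 := by
      intro k
      rw [Finset.card_product, rect_card (Nat.lt_succ_iff.1 k.2), pow_two]
    rw [Finset.sum_congr rfl fun k _ => hterm k, Fin.sum_univ_succ]
    have h0 : (tt N ((0 : Fin (K + 1)) : ℕ) * jj s N ((0 : Fin (K + 1)) : ℕ)) ^ 2 = 2 ^ (4 * N) := by
      rw [Fin.val_zero, tt_jj_zero, ← pow_mul]
      congr 1
      omega
    have h1 : ∀ k : Fin K, (tt N ((Fin.succ k : Fin (K + 1)) : ℕ) * jj s N ((Fin.succ k : Fin (K + 1)) : ℕ)) ^ 2 =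
        2 ^ (4 * N - 2 * s) := by
      intro k
      rw [Fin.val_succ, tt_jj_succ s K N (by have := k.2; omega) hN, ← pow_mul]
      congr 1
      omega
    rw [h0, Finset.sum_congr rfl fun k _ => h1 k, Finset.sum_const, Finset.card_univ, Fintype.card_fin,
      smul_eq_mul]
  have c2 : ((Finset.range (n + 1) ×ˢ Finset.range (n + 1)) ×ˢ ({R} ×ˢ Finset.range (n + 1))).card =
      (n + 1) ^ 3 := by
    rw [Finset.card_product, Finset.card_product, Finset.card_product, Finset.card_range, Finset.card_singleton]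
    ring
  have c3 : ((Finset.range (n + 1) ×ˢ {0}) ×ˢ (Finset.range (n + 1) ×ˢ Finset.range (n + 1))).card =
      (n + 1) ^ 3 := by
    rw [Finset.card_product, Finset.card_product, Finset.card_product, Finset.card_range, Finset.card_singleton]
    ring
  have u1 := Finset.card_union_le
    (((Finset.univ : Finset (Fin (K + 1))).biUnion fun k => rect s K N k ×ˢ rect s K N k) ∪
    ((Finset.range (n + 1) ×ˢ Finset.range (n + 1)) ×ˢ ({R} ×ˢ Finset.range (n + 1))))
    ((Finset.range (n + 1) ×ˢ {0}) ×ˢ (Finset.range (n + 1) ×ˢ Finset.range (n + 1)))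
  have u2 := Finset.card_union_le
    ((Finset.univ : Finset (Fin (K + 1))).biUnion fun k => rect s K N k ×ˢ rect s K N k)
    ((Finset.range (n + 1) ×ˢ Finset.range (n + 1)) ×ˢ ({R} ×ˢ Finset.range (n + 1)))
  rw [← hP] at u1
  omega

/-- realisation of a single class in a rectangle -/
lemma real_one (hcol : ∀ c, (part col Finset.univ c).card = csize s K N c) (k : Fin (K + 1)) {i j : ℕ}
    (hi1 : rr K N - tt N k ≤ i) (hi2 : i < rr K N) (hj : j ≤ jj s N k) :
    ∃ T : Finset (Fin n), IsCls (pmat col (ccap K N) (rr K N)) T (i, j) := by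
  have h1 : (rr K N - tt N k) + j ≤ (part col Finset.univ (some k)).card := by
    rw [hcol]
    show _ ≤ rr K N - tt N k + jj s N k
    omega
  have h2 : i - (rr K N - tt N k) ≤ (part col Finset.univ none).card := by
    rw [hcol]
    show _ ≤ rr K N
    omega
  obtain ⟨A, hA, hAc⟩ := Finset.exists_subset_card_eq h1
  obtain ⟨B, hB, hBc⟩ := Finset.exists_subset_card_eq h2
  exact ⟨A ∪ B, realise col (ccap K N) (rr K N) rfl k A B hA hB hi1 hi2.le hAc hBc⟩

lemma one_bound (hcol : ∀ c, (part col Finset.univ c).card = csize s K N c) (hN : s + K ≤ N) :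
    K * 2 ^ (2 * N - s - 1) ≤ hilb (pmat col (ccap K N) (rr K N)) 1 := by
  classical
  set P : Finset (ℕ × ℕ) := (Finset.range K).biUnion fun k => strip s K N k with hP
  have hcard : P.card = K * 2 ^ (2 * N - s - 1) := by
    rw [hP, Finset.card_biUnion]
    · rw [Finset.sum_congr rfl fun k hk => strip_card (by have := Finset.mem_range.1 hk; omega) hN,
        Finset.sum_const, Finset.card_range, smul_eq_mul]
    · intro k _ l _ hkl
      rcases lt_or_gt_of_ne hkl with h | h
      · exact strip_disj h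
      · exact (strip_disj h).symm
  rw [← hcard]
  apply le_hilb_one
  rintro ⟨i, j⟩ ht
  rw [hP, Finset.mem_biUnion] at ht
  obtain ⟨k, hk, hmem⟩ := ht
  rw [Finset.mem_range] at hk
  unfold strip at hmem
  simp only [Finset.mem_product, Finset.mem_Ico, Finset.mem_Ioc] at hmem
  have a := tt_le_rr K N (show k + 1 ≤ K from hk)
  have b := tt_pos N k
  have b' := tt_pos N (k + 1)
  obtain ⟨T, hT⟩ := real_one hcol (⟨k + 1, by omega⟩ : Fin (K + 1)) (i := i) (j := j)
    (by show rr K N - tt N (k + 1) ≤ i; omega) (by omega) (by show j ≤ jj s N (k + 1); omega)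
  refine ⟨T, ?_, hT⟩
  rw [hT.2]
  show 2 ≤ i + j
  omega

lemma three_bound (hcol : ∀ c, (part col Finset.univ c).card = csize s K N c) (hN : 2 ≤ N) :
    2 ^ (6 * N - 12) ≤ hilb (pmat col (ccap K N) (rr K N)) 3 := by
  classical
  set q := 2 ^ (N - 2) with hq
  have hq4 : 4 * q = tt N 0 := by
    rw [hq]
    unfold tt
    rw [show (4 : ℕ) = 2 ^ 2 by norm_num, ← pow_add]
    congr 1
    omega
  have hq4' : 4 * q = jj s N 0 := by
    rw [hq]
    unfold jj
    rw [if_pos rfl, show (4 : ℕ) = 2 ^ 2 by norm_num, ← pow_add]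
    congr 1
    omega
  have hqpos : 0 < q := Nat.pow_pos (by norm_num)
  have hR := tt_le_rr K N (Nat.zero_le K)
  set R := rr K N with hRdef
  set P : Finset ((ℕ × ℕ) × (ℕ × ℕ) × (ℕ × ℕ)) := blk (R - tt N 0) q 0 ×ˢ (blk (R - tt N 0) q 1 ×ˢ blk (R - tt N 0) q 2) with hP
  have hcard : P.card = 2 ^ (6 * N - 12) := by
    rw [hP, Finset.card_product, Finset.card_product, blk_card, blk_card, blk_card, hq, ← pow_add, ← pow_add, ← pow_add]
    congr 1
    omega
  rw [← hcard]
  apply le_hilb_three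
  rintro ⟨⟨i1, j1⟩, ⟨i2, j2⟩, ⟨i3, j3⟩⟩ ht
  rw [hP] at ht
  simp only [blk, Finset.mem_product, Finset.mem_Ico, Finset.mem_Ioc] at ht
  obtain ⟨⟨⟨a1, a2⟩, a3, a4⟩, ⟨⟨b1, b2⟩, b3, b4⟩, ⟨c1, c2⟩, c3, c4⟩ := ht
  have hk0 : (part col Finset.univ (some (0 : Fin (K + 1)))).card = R - tt N 0 + jj s N 0 := hcol _
  have hn0 : (part col Finset.univ none).card = R := hcol _
  obtain ⟨A3, hA3, hA3c⟩ := Finset.exists_subset_card_eq
    (s := part col Finset.univ (some (0 : Fin (K + 1)))) (n := R - tt N 0 + j3) (by rw [hk0]; omega)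
  obtain ⟨A2, hA2, hA2c⟩ := Finset.exists_subset_card_eq (s := A3) (n := R - tt N 0 + j2) (by rw [hA3c]; omega)
  obtain ⟨A1, hA1, hA1c⟩ := Finset.exists_subset_card_eq (s := A2) (n := R - tt N 0 + j1) (by rw [hA2c]; omega)
  obtain ⟨B3, hB3, hB3c⟩ := Finset.exists_subset_card_eq
    (s := part col Finset.univ none) (n := i3 - (R - tt N 0)) (by rw [hn0]; omega)
  obtain ⟨B2, hB2, hB2c⟩ := Finset.exists_subset_card_eq (s := B3) (n := i2 - (R - tt N 0)) (by rw [hB3c]; omega)
  obtain ⟨B1, hB1, hB1c⟩ := Finset.exists_subset_card_eq (s := B2) (n := i1 - (R - tt N 0)) (by rw [hB2c]; omega)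
  have r1 : IsCls (pmat col (ccap K N) R) (A1 ∪ B1) (i1, j1) :=
    realise col (ccap K N) R rfl 0 A1 B1 (hA1.trans (hA2.trans hA3)) (hB1.trans (hB2.trans hB3))
      (by show R - tt N 0 ≤ i1; omega) (by omega) hA1c hB1c
  have r2 : IsCls (pmat col (ccap K N) R) (A2 ∪ B2) (i2, j2) :=
    realise col (ccap K N) R rfl 0 A2 B2 (hA2.trans hA3) (hB2.trans hB3)
      (by show R - tt N 0 ≤ i2; omega) (by omega) hA2c hB2c
  have r3 : IsCls (pmat col (ccap K N) R) (A3 ∪ B3) (i3, j3) :=
    realise col (ccap K N) R rfl 0 A3 B3 hA3 hB3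
      (by show R - tt N 0 ≤ i3; omega) (by omega) hA3c hB3c
  refine ⟨A1 ∪ B1, A2 ∪ B2, A3 ∪ B3, ?_, Finset.union_subset_union hA1 hB1, Finset.union_subset_union hA2 hB2,
    ?_, ?_, r1, r2, r3⟩
  · rw [r1.2]
    show 2 ≤ i1 + j1
    omega
  · rw [r1.2, r2.2]
    show i1 + j1 + 2 ≤ i2 + j2
    omega
  · rw [r2.2, r3.2]
    show i2 + j2 + 2 ≤ i3 + j3
    omega

end Main

/-- **Log-concavity fails** for rank-nullity rings, by an arbitrarily large factor and already in degree two. -/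
theorem not_log_concave (C : ℕ) : ∃ (n : ℕ) (M : Matroid (Fin n)), 1 ≤ n ∧ M.E = Set.univ ∧
    C * hilb M 2 ^ 2 < hilb M 1 * hilb M 3 := by
  obtain ⟨s, hs⟩ : ∃ s, s = C + 17 := ⟨_, rfl⟩
  obtain ⟨K, hK⟩ : ∃ K, K = 2 ^ (2 * s) := ⟨_, rfl⟩
  obtain ⟨N, hN⟩ : ∃ N, N = 6 * K + 10 := ⟨_, rfl⟩
  have hsK : s ≤ K := by
    have h1 : s < 2 ^ s := Nat.lt_two_pow_self
    have h2 : 2 ^ s ≤ 2 ^ (2 * s) := Nat.pow_le_pow_right (by norm_num) (by omega)
    rw [hK]
    omega
  have hNs : s + K ≤ N := by omega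
  obtain ⟨n, hn⟩ : ∃ n, nn s K N = n := ⟨_, rfl⟩
  obtain ⟨col, hcol⟩ := exists_col (csize s K N) hn
  have b1 := one_bound hcol hNs
  have b2 := two_bound hcol hNs
  have b3 := three_bound hcol (by omega)
  have hnle : n + 1 ≤ 2 ^ (N + 2 * K + 3) := by
    rw [← hn]
    apply nn_le
    have h1 : K + 1 < 2 ^ (K + 1) := Nat.lt_two_pow_self
    omega
  have hn3 : 2 * (n + 1) ^ 3 ≤ 2 ^ (4 * N) := by
    calc 2 * (n + 1) ^ 3 ≤ 2 * (2 ^ (N + 2 * K + 3)) ^ 3 :=
          Nat.mul_le_mul_left _ (Nat.pow_le_pow_left hnle 3)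
      _ = 2 ^ (3 * (N + 2 * K + 3) + 1) := by
          rw [← pow_mul, ← pow_succ']
          congr 1
          ring
      _ ≤ 2 ^ (4 * N) := Nat.pow_le_pow_right (by norm_num) (by omega)
  have hKt : K * 2 ^ (4 * N - 2 * s) = 2 ^ (4 * N) := by
    rw [hK, ← pow_add]
    congr 1
    omega
  have hK1 : K * 2 ^ (2 * N - s - 1) = 2 ^ (2 * N + s - 1) := by
    rw [hK, ← pow_add]
    congr 1
    omega
  rw [hKt] at b2
  rw [hK1] at b1
  have hpos : 1 ≤ n := by
    rw [← hn]
    unfold nn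
    rw [Fintype.sum_option]
    have : 1 ≤ csize s K N none := Nat.one_le_two_pow
    omega
  refine ⟨n, pmat col (ccap K N) (rr K N), hpos, pmat_E _ _ _, ?_⟩
  generalize hilb (pmat col (ccap K N) (rr K N)) 1 = h1 at *
  generalize hilb (pmat col (ccap K N) (rr K N)) 2 = h2 at *
  generalize hilb (pmat col (ccap K N) (rr K N)) 3 = h3 at *
  have e2 : h2 ≤ 2 ^ (4 * N + 2) := by
    rw [pow_add]
    omega
  have e22 : h2 ^ 2 ≤ 2 ^ (8 * N + 4) := by
    calc h2 ^ 2 ≤ (2 ^ (4 * N + 2)) ^ 2 := Nat.pow_le_pow_left e2 2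
      _ = 2 ^ (8 * N + 4) := by
          rw [← pow_mul]
          congr 1
          ring
  have hC : C < 2 ^ C := Nat.lt_two_pow_self
  calc C * h2 ^ 2 ≤ C * 2 ^ (8 * N + 4) := Nat.mul_le_mul_left _ e22
    _ < 2 ^ C * 2 ^ (8 * N + 4) := Nat.mul_lt_mul_of_pos_right hC (Nat.pow_pos (by norm_num))
    _ = 2 ^ (2 * N + s - 1) * 2 ^ (6 * N - 12) := by
        rw [← pow_add, ← pow_add]
        congr 1
        omega
    _ ≤ h1 * h3 := Nat.mul_le_mul b1 b3

end Pool.Agent.Helper46.RankNull
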