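import Pool.Agent.Helper46.RankNull.Ring

/-!
# Lower bounds for the Hilbert function of the rank-nullity ring in degrees 1 and 3
-/

namespace Pool.Agent.Helper46.RankNull

open MvPolynomial

variable {n : ℕ}

/-- Triangular functionals give linear independence. -/
lemma linInd_of_triangular {ι M : Type*} [AddCommGroup M] (v : ι → M) (size : ι → ℕ)
    (φ : ι → M →+ ℤ) (h1 : ∀ t, φ t (v t) = 1)
    (h2 : ∀ t u, φ t (v u) ≠ 0 → u = t ∨ size u < size t) : LinearIndependent ℤ v := by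
  classical
  rw [linearIndependent_iff']
  intro s g hg
  by_contra hcon
  push Not at hcon
  obtain ⟨i, his, hi⟩ := hcon
  obtain ⟨t, ht, hmin⟩ := Finset.exists_min_image (s.filter fun i => g i ≠ 0) size
    ⟨i, Finset.mem_filter.2 ⟨his, hi⟩⟩
  rw [Finset.mem_filter] at ht
  have h0 : φ t (∑ i ∈ s, g i • v i) = 0 := by rw [hg, map_zero]
  rw [map_sum, Finset.sum_eq_single_of_mem t ht.1] at h0
  · rw [map_zsmul, h1 t] at h0
    simp at h0
    exact ht.2 h0
  · intro u hu hut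
    rw [map_zsmul]
    by_cases hgu : g u = 0
    · rw [hgu, zero_smul]
    · by_cases hphi : φ t (v u) = 0
      · rw [hphi, smul_zero]
      · rcases h2 t u hphi with h | h
        · exact absurd h hut
        · have := hmin u (Finset.mem_filter.2 ⟨hu, hgu⟩)
          omega

/-- A lower bound for the Hilbert function from triangular functionals. -/
lemma le_hilb (M : Matroid (Fin n)) (d : ℕ) {ι : Type*} [Fintype ι] (v : ι → Chow n)
    (hv1 : ∀ t, v t ∈ rankNullityRing M) (hv2 : ∀ t, v t ∈ degPart n d) (size : ι → ℕ)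
    (φ : ι → Chow n →+ ℤ) (h1 : ∀ t, φ t (v t) = 1)
    (h2 : ∀ t u, φ t (v u) ≠ 0 → u = t ∨ size u < size t) : Fintype.card ι ≤ hilb M d := by
  have hli := linInd_of_triangular v size φ h1 h2
  rw [hilb_eq]
  set W := AddSubgroup.toIntSubmodule (piece M d) with hW
  let w : ι → W := fun t => ⟨v t, hv1 t, hv2 t⟩
  have hw : LinearIndependent ℤ w := by
    apply LinearIndependent.of_comp W.subtype
    exact hli
  exact hw.fintype_card_le_finrank

/-- Ring homomorphisms out of the Chow ring. -/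
lemma exists_hom {B : Type*} [CommRing B] (g : NSet n → B)
    (h1 : ∀ S T : NSet n, ¬ S.1 ⊆ T.1 → ¬ T.1 ⊆ S.1 → g S * g T = 0)
    (h2 : ∀ e : Fin n, ∑ S : NSet n with e ∈ S.1, g S = 0) :
    ∃ ψ : Chow n →+* B, ∀ S, ψ (toChow n (X S)) = g S := by
  have hker : ∀ a ∈ Ideal.span (chowRels n), (eval₂Hom (Int.castRingHom B) g) a = 0 := by
    intro a ha
    have hle : Ideal.span (chowRels n) ≤ RingHom.ker (eval₂Hom (Int.castRingHom B) g) := by
      rw [Ideal.span_le]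
      rintro f (⟨S, T, hS, hT, rfl⟩ | ⟨e, rfl⟩)
      · rw [SetLike.mem_coe, RingHom.mem_ker, map_mul, eval₂Hom_X', eval₂Hom_X']
        exact h1 S T hS hT
      · rw [SetLike.mem_coe, RingHom.mem_ker, map_sum]
        simp only [eval₂Hom_X']
        exact h2 e
    exact hle ha
  refine ⟨(Ideal.Quotient.lift _ (eval₂Hom (Int.castRingHom B) g) hker :
    MvPolynomial (NSet n) ℤ ⧸ Ideal.span (chowRels n) →+* B), fun S => ?_⟩
  have h := Ideal.Quotient.lift_mk (Ideal.span (chowRels n)) (eval₂Hom (Int.castRingHom B) g) hker (a := X S)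
  rw [eval₂Hom_X'] at h
  exact h

/-- The coefficient attached to a pair `A ⊆ B` of consecutive chain members. -/
noncomputable def coef (A B S : Finset (Fin n)) : ℤ :=
  (if S = B then 1 else 0) - (∑ f ∈ B \ A, if S = insert f A then 1 else 0) +
    (if S = A then ((B \ A).card : ℤ) - 1 else 0)

lemma sum_ind (e : Fin n) (A : Finset (Fin n)) (hA : A.Nonempty) (b : ℤ) :
    (∑ S : NSet n with e ∈ S.1, if S.1 = A then b else 0) = if e ∈ A then b else 0 := by
  classical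
  by_cases he : e ∈ A
  · rw [if_pos he, Finset.sum_eq_single_of_mem (⟨A, hA⟩ : NSet n)]
    · simp
    · simp [he]
    · rintro S - hS
      rw [if_neg]
      intro h
      exact hS (Subtype.ext h)
  · rw [if_neg he]
    apply Finset.sum_eq_zero
    intro S hS
    rw [if_neg]
    rintro rfl
    rw [Finset.mem_filter] at hS
    exact he hS.2

lemma coef_sum (A B : Finset (Fin n)) (hAB : A ⊆ B) (hB : B.Nonempty) (e : Fin n) :
    ∑ S : NSet n with e ∈ S.1, coef A B S.1 = 0 := by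
  classical
  unfold coef
  rw [Finset.sum_add_distrib, Finset.sum_sub_distrib, sum_ind e B hB, Finset.sum_comm]
  have h1 : ∀ f ∈ B \ A, (∑ S : NSet n with e ∈ S.1, if S.1 = insert f A then (1 : ℤ) else 0) =
      if e ∈ insert f A then 1 else 0 := by
    intro f _
    exact sum_ind e _ (Finset.insert_nonempty _ _) 1
  rw [Finset.sum_congr rfl h1]
  by_cases heA : e ∈ A
  · have hA : A.Nonempty := ⟨e, heA⟩
    rw [sum_ind e A hA, if_pos (hAB heA), if_pos heA]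
    have h2 : ∀ f ∈ B \ A, (if e ∈ insert f A then (1 : ℤ) else 0) = 1 := by
      intro f _
      rw [if_pos (Finset.mem_insert_of_mem heA)]
    rw [Finset.sum_congr rfl h2]
    simp
  · have h3 : (∑ S : NSet n with e ∈ S.1, if S.1 = A then ((B \ A).card : ℤ) - 1 else 0) = 0 := by
      apply Finset.sum_eq_zero
      intro S hS
      rw [if_neg]
      intro h
      rw [Finset.mem_filter, h] at hS
      exact heA hS.2
    rw [h3, add_zero]
    by_cases heB : e ∈ B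
    · rw [if_pos heB, Finset.sum_eq_single_of_mem e (Finset.mem_sdiff.2 ⟨heB, heA⟩)]
      · simp
      · intro f _ hfe
        rw [if_neg]
        simp only [Finset.mem_insert, not_or]
        exact ⟨Ne.symm hfe, heA⟩
    · rw [if_neg heB, zero_sub, neg_eq_zero]
      apply Finset.sum_eq_zero
      intro f hf
      rw [if_neg]
      simp only [Finset.mem_insert, not_or]
      refine ⟨?_, heA⟩
      rintro rfl
      exact heB (Finset.mem_sdiff.1 hf).1

lemma coef_supp {A B S : Finset (Fin n)} (hAB : A ⊆ B) (h : coef A B S ≠ 0) : A ⊆ S ∧ S ⊆ B := by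
  classical
  by_contra hcon
  apply h
  unfold coef
  have h1 : S ≠ B := by
    rintro rfl
    exact hcon ⟨hAB, subset_rfl⟩
  have h2 : S ≠ A := by
    rintro rfl
    exact hcon ⟨subset_rfl, hAB⟩
  have h3 : (∑ f ∈ B \ A, if S = insert f A then (1 : ℤ) else 0) = 0 := by
    apply Finset.sum_eq_zero
    intro f hf
    rw [if_neg]
    rintro rfl
    refine hcon ⟨Finset.subset_insert _ _, ?_⟩
    rw [Finset.insert_subset_iff]
    exact ⟨(Finset.mem_sdiff.1 hf).1, hAB⟩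
  rw [if_neg h1, if_neg h2, h3]
  norm_num

lemma coef_self {A B : Finset (Fin n)} (hcard : A.card + 2 ≤ B.card) : coef A B B = 1 := by
  classical
  unfold coef
  have h2 : B ≠ A := by
    rintro rfl
    omega
  have h3 : (∑ f ∈ B \ A, if B = insert f A then (1 : ℤ) else 0) = 0 := by
    apply Finset.sum_eq_zero
    intro f hf
    rw [if_neg]
    intro h
    have := Finset.card_insert_le f A
    rw [← h] at this
    omega
  rw [if_pos rfl, if_neg h2, h3]
  norm_num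

open Classical in
/-- class sums of coefficients -/
noncomputable def csum (M : Matroid (Fin n)) (A B : Finset (Fin n)) (c : ℕ × ℕ) : ℤ :=
  ∑ S : NSet n with IsCls M S.1 c, coef A B S.1

lemma csum_ne {M : Matroid (Fin n)} {A B : Finset (Fin n)} (hAB : A ⊆ B) {b c : ℕ × ℕ} (hb : IsCls M B b)
    (h : csum M A B c ≠ 0) : c = b ∨ c.1 + c.2 < B.card := by
  classical
  unfold csum at h
  obtain ⟨S, hS, hne⟩ := Finset.exists_ne_zero_of_sum_ne_zero h
  rw [Finset.mem_filter] at hS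
  have hsub := (coef_supp hAB hne).2
  by_cases hSB : S.1 = B
  · left
    rw [hSB] at hS
    exact hS.2.unique hb
  · right
    have := Finset.card_lt_card (Finset.ssubset_iff_subset_ne.2 ⟨hsub, hSB⟩)
    rw [hS.2.2] at this
    exact this

lemma csum_self {M : Matroid (Fin n)} {A B : Finset (Fin n)} (hAB : A ⊆ B) (hcard : A.card + 2 ≤ B.card)
    {b : ℕ × ℕ} (hb : IsCls M B b) : csum M A B b = 1 := by
  classical
  unfold csum
  have hBne : B.Nonempty := by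
    rw [← Finset.card_pos]
    omega
  rw [Finset.sum_eq_single_of_mem (⟨B, hBne⟩ : NSet n)]
  · exact coef_self hcard
  · rw [Finset.mem_filter]
    exact ⟨Finset.mem_univ _, hb⟩
  · rintro S hS hSB
    rw [Finset.mem_filter] at hS
    by_contra hne
    have hsub := (coef_supp hAB hne).2
    apply hSB
    apply Subtype.ext
    apply Finset.eq_of_subset_of_card_le hsub
    rw [hS.2.2, hb.2]

lemma csum_zero_of_lt {M : Matroid (Fin n)} {A B : Finset (Fin n)} (hAB : A ⊆ B) {c : ℕ × ℕ}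
    (h : B.card < c.1 + c.2) : csum M A B c = 0 := by
  classical
  by_contra hne
  unfold csum at hne
  obtain ⟨S, hS, hne⟩ := Finset.exists_ne_zero_of_sum_ne_zero hne
  rw [Finset.mem_filter] at hS
  have hsub := (coef_supp hAB hne).2
  have := Finset.card_le_card hsub
  rw [hS.2.2] at this
  omega

/-- Image of `y` under a ring homomorphism sending `x_S` to a combination of three elements. -/
lemma map_y {B : Type*} [CommRing B] (M : Matroid (Fin n)) (ψ : Chow n →+* B) (A₁ B₁ A₂ B₂ A₃ B₃ : Finset (Fin n))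
    (e₁ e₂ e₃ : B) (hψ : ∀ S : NSet n, ψ (toChow n (X S)) =
      (coef A₁ B₁ S.1 : B) * e₁ + (coef A₂ B₂ S.1 : B) * e₂ + (coef A₃ B₃ S.1 : B) * e₃) (c : ℕ × ℕ) :
    ψ (y M c.1 c.2) = (csum M A₁ B₁ c : B) * e₁ + (csum M A₂ B₂ c : B) * e₂ + (csum M A₃ B₃ c : B) * e₃ := by
  classical
  unfold y csum
  rw [map_sum]
  have : ∀ S : NSet n, (M.eRk (S.1 : Set (Fin n)) = (c.1 : ℕ∞) ∧ S.1.card = c.1 + c.2) ↔ IsCls M S.1 c :=
    fun S => Iff.rfl
  push_cast
  rw [Finset.sum_mul, Finset.sum_mul, Finset.sum_mul, ← Finset.sum_add_distrib, ← Finset.sum_add_distrib]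
  refine Finset.sum_congr ?_ fun S _ => hψ S
  ext S
  rw [Finset.mem_filter, Finset.mem_filter]
  exact Iff.rfl

lemma y_mem {M : Matroid (Fin n)} {S : Finset (Fin n)} {c : ℕ × ℕ} (h : IsCls M S c) :
    y M c.1 c.2 ∈ rankNullityRing M := by
  apply Subring.subset_closure
  have h1 : S.card ≤ n := by
    have := Finset.card_le_univ S
    rwa [Fintype.card_fin] at this
  have h2 := h.2
  exact ⟨c.1, c.2, by omega, by omega, rfl⟩

/-- Lower bound for `h_M(1)`. -/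
theorem le_hilb_one (M : Matroid (Fin n)) (P : Finset (ℕ × ℕ))
    (hP : ∀ t ∈ P, ∃ T : Finset (Fin n), 2 ≤ T.card ∧ IsCls M T t) : P.card ≤ hilb M 1 := by
  classical
  have hP' : ∀ t : P, ∃ T : Finset (Fin n), 2 ≤ T.card ∧ IsCls M T t.1 := fun t => hP t.1 t.2
  choose T hT2 hTc using hP'
  have hhom : ∀ t : P, ∃ ψ : Chow n →+* DualNumber ℤ, ∀ S : NSet n, ψ (toChow n (X S)) =
      (coef ∅ (T t) S.1 : DualNumber ℤ) * DualNumber.eps + (coef ∅ (T t) S.1 : DualNumber ℤ) * 0 +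
        (coef ∅ (T t) S.1 : DualNumber ℤ) * 0 := by
    intro t
    apply exists_hom
    · intro S S' _ _
      have : (DualNumber.eps : DualNumber ℤ) * DualNumber.eps = 0 := DualNumber.eps_mul_eps
      linear_combination ((coef ∅ (T t) S.1 : DualNumber ℤ) * (coef ∅ (T t) S'.1 : DualNumber ℤ)) * this
    · intro e
      simp only [mul_zero, add_zero]
      rw [← Finset.sum_mul]
      have h := coef_sum ∅ (T t) (Finset.empty_subset _) (by rw [← Finset.card_pos]; have := hT2 t; omega) e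
      have h' : (∑ S : NSet n with e ∈ S.1, (coef ∅ (T t) S.1 : DualNumber ℤ)) = 0 := by
        rw [← Int.cast_sum, h, Int.cast_zero]
      rw [h', zero_mul]
  choose ψ hψ using hhom
  let φ : P → Chow n →+ ℤ := fun t => (TrivSqZeroExt.sndHom ℤ ℤ).toAddMonoidHom.comp (ψ t).toAddMonoidHom
  have hval : ∀ (t : P) (c : ℕ × ℕ), φ t (y M c.1 c.2) = csum M ∅ (T t) c := by
    intro t c
    show TrivSqZeroExt.snd (ψ t (y M c.1 c.2)) = _
    rw [map_y M (ψ t) ∅ (T t) ∅ (T t) ∅ (T t) _ _ _ (hψ t) c]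
    simp
  have := le_hilb M 1 (ι := P) (fun t => y M t.1.1 t.1.2) (fun t => y_mem (hTc t)) ?_
    (fun t => t.1.1 + t.1.2) φ ?_ ?_
  · simpa using this
  · intro t
    exact ⟨yl M t.1, yl_homog M t.1, mk_yl M t.1⟩
  · intro t
    rw [hval]
    exact csum_self (Finset.empty_subset _) (by simpa using hT2 t) (hTc t)
  · intro t u h
    rw [hval] at h
    rcases csum_ne (Finset.empty_subset _) (hTc t) h with h | h
    · left
      exact Subtype.ext h
    · right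
      have h2 := (hTc t).2
      omega

/-- a ring of the form `ℤ[ε₁,ε₂,ε₃]/(ε₁²,ε₂²,ε₃²)` with the functional `coefficient of ε₁ε₂ε₃` -/
lemma exists_ring : ∃ (B : Type) (_ : CommRing B) (e1 e2 e3 : B) (lam : B →+ ℤ),
    e1 * e1 = 0 ∧ e2 * e2 = 0 ∧ e3 * e3 = 0 ∧ lam (e1 * e2 * e3) = 1 := by
  refine ⟨DualNumber (DualNumber (DualNumber ℤ)), inferInstance,
    TrivSqZeroExt.inl (TrivSqZeroExt.inl DualNumber.eps), TrivSqZeroExt.inl DualNumber.eps, DualNumber.eps,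
    (TrivSqZeroExt.sndHom ℤ ℤ).toAddMonoidHom.comp
    ((TrivSqZeroExt.sndHom (DualNumber ℤ) (DualNumber ℤ)).toAddMonoidHom.comp
      (TrivSqZeroExt.sndHom (DualNumber (DualNumber ℤ)) (DualNumber (DualNumber ℤ))).toAddMonoidHom),
    ?_, ?_, DualNumber.eps_mul_eps, ?_⟩
  · rw [← TrivSqZeroExt.inl_mul, ← TrivSqZeroExt.inl_mul, DualNumber.eps_mul_eps, TrivSqZeroExt.inl_zero,
      TrivSqZeroExt.inl_zero]
  · rw [← TrivSqZeroExt.inl_mul, DualNumber.eps_mul_eps, TrivSqZeroExt.inl_zero]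
  · show TrivSqZeroExt.snd (TrivSqZeroExt.snd (TrivSqZeroExt.snd
      (TrivSqZeroExt.inl (TrivSqZeroExt.inl DualNumber.eps) * TrivSqZeroExt.inl DualNumber.eps *
        (DualNumber.eps : DualNumber (DualNumber (DualNumber ℤ)))))) = (1 : ℤ)
    simp [TrivSqZeroExt.snd_mul]

lemma lam_prod {D3 : Type} [CommRing D3] {e1 e2 e3 : D3} {lam : D3 →+ ℤ} (e1_sq : e1 * e1 = 0)
    (e2_sq : e2 * e2 = 0) (e3_sq : e3 * e3 = 0) (lam_one : lam (e1 * e2 * e3) = 1)
    (a₁ a₂ a₃ b₁ b₂ b₃ c₁ c₂ c₃ : ℤ) :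
    lam (((a₁ : D3) * e1 + (a₂ : D3) * e2 + (a₃ : D3) * e3) *
      ((b₁ : D3) * e1 + (b₂ : D3) * e2 + (b₃ : D3) * e3) *
      ((c₁ : D3) * e1 + (c₂ : D3) * e2 + (c₃ : D3) * e3)) =
    a₁ * b₂ * c₃ + a₁ * b₃ * c₂ + a₂ * b₁ * c₃ + a₂ * b₃ * c₁ + a₃ * b₁ * c₂ + a₃ * b₂ * c₁ := by
  have h : (((a₁ : D3) * e1 + (a₂ : D3) * e2 + (a₃ : D3) * e3) *
      ((b₁ : D3) * e1 + (b₂ : D3) * e2 + (b₃ : D3) * e3) *
      ((c₁ : D3) * e1 + (c₂ : D3) * e2 + (c₃ : D3) * e3)) =
      (a₁ * b₂ * c₃ + a₁ * b₃ * c₂ + a₂ * b₁ * c₃ + a₂ * b₃ * c₁ + a₃ * b₁ * c₂ + a₃ * b₂ * c₁ : ℤ) •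
        (e1 * e2 * e3) := by
    rw [zsmul_eq_mul]
    push_cast
    linear_combination
      ((a₁ : D3) * b₁ * c₁ * e1 + (a₁ : D3) * b₁ * c₂ * e2 + (a₁ : D3) * b₁ * c₃ * e3 +
        (a₁ : D3) * b₂ * c₁ * e2 + (a₁ : D3) * b₃ * c₁ * e3 +
        (a₂ : D3) * b₁ * c₁ * e2 + (a₃ : D3) * b₁ * c₁ * e3) * e1_sq +
      ((a₂ : D3) * b₂ * c₂ * e2 + (a₂ : D3) * b₂ * c₁ * e1 + (a₂ : D3) * b₂ * c₃ * e3 +
        (a₂ : D3) * b₁ * c₂ * e1 + (a₂ : D3) * b₃ * c₂ * e3 +
        (a₁ : D3) * b₂ * c₂ * e1 + (a₃ : D3) * b₂ * c₂ * e3) * e2_sq +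
      ((a₃ : D3) * b₃ * c₃ * e3 + (a₃ : D3) * b₃ * c₁ * e1 + (a₃ : D3) * b₃ * c₂ * e2 +
        (a₃ : D3) * b₁ * c₃ * e1 + (a₃ : D3) * b₂ * c₃ * e2 +
        (a₁ : D3) * b₃ * c₃ * e1 + (a₂ : D3) * b₃ * c₃ * e2) * e3_sq
  rw [h, map_zsmul, lam_one]
  simp

/-- Lower bound for `h_M(3)`. -/
theorem le_hilb_three (M : Matroid (Fin n)) (P : Finset ((ℕ × ℕ) × (ℕ × ℕ) × (ℕ × ℕ)))
    (hP : ∀ t ∈ P, ∃ T₁ T₂ T₃ : Finset (Fin n), 2 ≤ T₁.card ∧ T₁ ⊆ T₂ ∧ T₂ ⊆ T₃ ∧ T₁.card + 2 ≤ T₂.card ∧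
      T₂.card + 2 ≤ T₃.card ∧ IsCls M T₁ t.1 ∧ IsCls M T₂ t.2.1 ∧ IsCls M T₃ t.2.2) :
    P.card ≤ hilb M 3 := by
  classical
  obtain ⟨D3, _, e1, e2, e3, lam, e1_sq, e2_sq, e3_sq, lam_one⟩ := exists_ring
  have hP' : ∀ t : P, ∃ T₁ T₂ T₃ : Finset (Fin n), 2 ≤ T₁.card ∧ T₁ ⊆ T₂ ∧ T₂ ⊆ T₃ ∧ T₁.card + 2 ≤ T₂.card ∧
      T₂.card + 2 ≤ T₃.card ∧ IsCls M T₁ t.1.1 ∧ IsCls M T₂ t.1.2.1 ∧ IsCls M T₃ t.1.2.2 :=
    fun t => hP t.1 t.2
  choose T₁ T₂ T₃ hT1 h12 h23 hg2 hg3 hc1 hc2 hc3 using hP'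
  have hhom : ∀ t : P, ∃ ψ : Chow n →+* D3, ∀ S : NSet n, ψ (toChow n (X S)) =
      (coef ∅ (T₁ t) S.1 : D3) * e1 + (coef (T₁ t) (T₂ t) S.1 : D3) * e2 +
        (coef (T₂ t) (T₃ t) S.1 : D3) * e3 := by
    intro t
    apply exists_hom
    · intro S S' hS hS'
      have z12 : (coef ∅ (T₁ t) S.1) * (coef (T₁ t) (T₂ t) S'.1) = 0 := by
        by_contra h
        exact hS ((coef_supp (Finset.empty_subset _) (left_ne_zero_of_mul h)).2.trans
          (coef_supp (h12 t) (right_ne_zero_of_mul h)).1)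
      have z21 : (coef ∅ (T₁ t) S'.1) * (coef (T₁ t) (T₂ t) S.1) = 0 := by
        by_contra h
        exact hS' ((coef_supp (Finset.empty_subset _) (left_ne_zero_of_mul h)).2.trans
          (coef_supp (h12 t) (right_ne_zero_of_mul h)).1)
      have z13 : (coef ∅ (T₁ t) S.1) * (coef (T₂ t) (T₃ t) S'.1) = 0 := by
        by_contra h
        exact hS (((coef_supp (Finset.empty_subset _) (left_ne_zero_of_mul h)).2.trans (h12 t)).trans
          (coef_supp (h23 t) (right_ne_zero_of_mul h)).1)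
      have z31 : (coef ∅ (T₁ t) S'.1) * (coef (T₂ t) (T₃ t) S.1) = 0 := by
        by_contra h
        exact hS' (((coef_supp (Finset.empty_subset _) (left_ne_zero_of_mul h)).2.trans (h12 t)).trans
          (coef_supp (h23 t) (right_ne_zero_of_mul h)).1)
      have z23 : (coef (T₁ t) (T₂ t) S.1) * (coef (T₂ t) (T₃ t) S'.1) = 0 := by
        by_contra h
        exact hS ((coef_supp (h12 t) (left_ne_zero_of_mul h)).2.trans
          (coef_supp (h23 t) (right_ne_zero_of_mul h)).1)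
      have z32 : (coef (T₁ t) (T₂ t) S'.1) * (coef (T₂ t) (T₃ t) S.1) = 0 := by
        by_contra h
        exact hS' ((coef_supp (h12 t) (left_ne_zero_of_mul h)).2.trans
          (coef_supp (h23 t) (right_ne_zero_of_mul h)).1)
      have c12 := congrArg (Int.cast : ℤ → D3) z12
      have c21 := congrArg (Int.cast : ℤ → D3) z21
      have c13 := congrArg (Int.cast : ℤ → D3) z13
      have c31 := congrArg (Int.cast : ℤ → D3) z31
      have c23 := congrArg (Int.cast : ℤ → D3) z23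
      have c32 := congrArg (Int.cast : ℤ → D3) z32
      rw [Int.cast_mul, Int.cast_zero] at c12 c21 c13 c31 c23 c32
      generalize (coef ∅ (T₁ t) S.1 : D3) = a at *
      generalize (coef (T₁ t) (T₂ t) S.1 : D3) = b at *
      generalize (coef (T₂ t) (T₃ t) S.1 : D3) = c at *
      generalize (coef ∅ (T₁ t) S'.1 : D3) = a' at *
      generalize (coef (T₁ t) (T₂ t) S'.1 : D3) = b' at *
      generalize (coef (T₂ t) (T₃ t) S'.1 : D3) = c' at *
      linear_combination (a * a') * e1_sq + (b * b') * e2_sq + (c * c') * e3_sq +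
        e1 * e2 * c12 + e1 * e2 * c21 + e1 * e3 * c13 + e1 * e3 * c31 + e2 * e3 * c23 + e2 * e3 * c32
    · intro e
      have hne1 : (T₁ t).Nonempty := by rw [← Finset.card_pos]; have := hT1 t; omega
      have k1 := congrArg (Int.cast : ℤ → D3) (coef_sum ∅ (T₁ t) (Finset.empty_subset _) hne1 e)
      have k2 := congrArg (Int.cast : ℤ → D3) (coef_sum (T₁ t) (T₂ t) (h12 t) (hne1.mono (h12 t)) e)
      have k3 := congrArg (Int.cast : ℤ → D3) (coef_sum (T₂ t) (T₃ t) (h23 t) ((hne1.mono (h12 t)).mono (h23 t)) e)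
      rw [Int.cast_sum, Int.cast_zero] at k1 k2 k3
      rw [Finset.sum_add_distrib, Finset.sum_add_distrib, ← Finset.sum_mul, ← Finset.sum_mul, ← Finset.sum_mul,
        k1, k2, k3]
      simp
  choose ψ hψ using hhom
  let φ : P → Chow n →+ ℤ := fun t => lam.comp (ψ t).toAddMonoidHom
  have hval : ∀ (t : P) (c d e : ℕ × ℕ), φ t (y M c.1 c.2 * y M d.1 d.2 * y M e.1 e.2) =
      csum M ∅ (T₁ t) c * csum M (T₁ t) (T₂ t) d * csum M (T₂ t) (T₃ t) e +
      csum M ∅ (T₁ t) c * csum M (T₂ t) (T₃ t) d * csum M (T₁ t) (T₂ t) e +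
      csum M (T₁ t) (T₂ t) c * csum M ∅ (T₁ t) d * csum M (T₂ t) (T₃ t) e +
      csum M (T₁ t) (T₂ t) c * csum M (T₂ t) (T₃ t) d * csum M ∅ (T₁ t) e +
      csum M (T₂ t) (T₃ t) c * csum M ∅ (T₁ t) d * csum M (T₁ t) (T₂ t) e +
      csum M (T₂ t) (T₃ t) c * csum M (T₁ t) (T₂ t) d * csum M ∅ (T₁ t) e := by
    intro t c d e
    show lam (ψ t (y M c.1 c.2 * y M d.1 d.2 * y M e.1 e.2)) = _
    rw [map_mul (ψ t), map_mul (ψ t), map_y M (ψ t) ∅ (T₁ t) (T₁ t) (T₂ t) (T₂ t) (T₃ t) _ _ _ (hψ t) c,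
      map_y M (ψ t) ∅ (T₁ t) (T₁ t) (T₂ t) (T₂ t) (T₃ t) _ _ _ (hψ t) d,
      map_y M (ψ t) ∅ (T₁ t) (T₁ t) (T₂ t) (T₂ t) (T₃ t) _ _ _ (hψ t) e, lam_prod e1_sq e2_sq e3_sq lam_one]
  have := le_hilb M 3 (ι := P)
    (fun t => y M t.1.1.1 t.1.1.2 * y M t.1.2.1.1 t.1.2.1.2 * y M t.1.2.2.1 t.1.2.2.2)
    (fun t => mul_mem (mul_mem (y_mem (hc1 t)) (y_mem (hc2 t))) (y_mem (hc3 t))) ?_
    (fun t => (t.1.1.1 + t.1.1.2) + (t.1.2.1.1 + t.1.2.1.2) + (t.1.2.2.1 + t.1.2.2.2)) φ ?_ ?_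
  · simpa using this
  · intro t
    refine ⟨yl M t.1.1 * yl M t.1.2.1 * yl M t.1.2.2,
      ((yl_homog M t.1.1).mul (yl_homog M t.1.2.1)).mul (yl_homog M t.1.2.2), ?_⟩
    show toChow n (yl M t.1.1 * yl M t.1.2.1 * yl M t.1.2.2) = _
    rw [map_mul, map_mul, mk_yl, mk_yl, mk_yl]
  · intro t
    have s1 : csum M ∅ (T₁ t) t.1.1 = 1 := csum_self (Finset.empty_subset _) (by simpa using hT1 t) (hc1 t)
    have s2 : csum M (T₁ t) (T₂ t) t.1.2.1 = 1 := csum_self (h12 t) (hg2 t) (hc2 t)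
    have s3 : csum M (T₂ t) (T₃ t) t.1.2.2 = 1 := csum_self (h23 t) (hg3 t) (hc3 t)
    have a1 := (hc1 t).2
    have a2 := (hc2 t).2
    have a3 := (hc3 t).2
    have b2 := hg2 t
    have b3 := hg3 t
    have z1 : csum M ∅ (T₁ t) t.1.2.1 = 0 := csum_zero_of_lt (Finset.empty_subset _) (by omega)
    have z2 : csum M ∅ (T₁ t) t.1.2.2 = 0 := csum_zero_of_lt (Finset.empty_subset _) (by omega)
    have z3 : csum M (T₁ t) (T₂ t) t.1.2.2 = 0 := csum_zero_of_lt (h12 t) (by omega)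
    rw [hval, s1, s2, s3, z1, z2, z3]
    ring
  · intro t u h
    rw [hval] at h
    have a1 := (hc1 t).2
    have a2 := (hc2 t).2
    have a3 := (hc3 t).2
    have b2 := hg2 t
    have b3 := hg3 t
    have u1 := (hc1 u).2
    have u2 := (hc2 u).2
    have u3 := (hc3 u).2
    have w2 := hg2 u
    have w3 := hg3 u
    have q1 : ∀ c : ℕ × ℕ, csum M ∅ (T₁ t) c ≠ 0 → c = t.1.1 ∨ c.1 + c.2 < (T₁ t).card :=
      fun c hc => csum_ne (Finset.empty_subset _) (hc1 t) hc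
    have q2 : ∀ c : ℕ × ℕ, csum M (T₁ t) (T₂ t) c ≠ 0 → c = t.1.2.1 ∨ c.1 + c.2 < (T₂ t).card :=
      fun c hc => csum_ne (h12 t) (hc2 t) hc
    have q3 : ∀ c : ℕ × ℕ, csum M (T₂ t) (T₃ t) c ≠ 0 → c = t.1.2.2 ∨ c.1 + c.2 < (T₃ t).card :=
      fun c hc => csum_ne (h23 t) (hc3 t) hc
    have main : ∀ c d e : ℕ × ℕ, csum M ∅ (T₁ t) c * csum M (T₁ t) (T₂ t) d * csum M (T₂ t) (T₃ t) e ≠ 0 →
        (c = t.1.1 ∧ d = t.1.2.1 ∧ e = t.1.2.2) ∨
        (c.1 + c.2) + (d.1 + d.2) + (e.1 + e.2) < (T₁ t).card + (T₂ t).card + (T₃ t).card := by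
      intro c d e hne
      have r1 := q1 c (left_ne_zero_of_mul (left_ne_zero_of_mul hne))
      have r2 := q2 d (right_ne_zero_of_mul (left_ne_zero_of_mul hne))
      have r3 := q3 e (right_ne_zero_of_mul hne)
      rcases r1 with r1 | r1
      · rcases r2 with r2 | r2
        · rcases r3 with r3 | r3
          · exact Or.inl ⟨r1, r2, r3⟩
          · right; subst r1 r2; omega
        · rcases r3 with r3 | r3
          · right; subst r1 r3; omega
          · right; subst r1; omega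
      · rcases r2 with r2 | r2
        · rcases r3 with r3 | r3
          · right; subst r2 r3; omega
          · right; subst r2; omega
        · rcases r3 with r3 | r3
          · right; subst r3; omega
          · right; omega
    have fin : ∀ c d e : ℕ × ℕ, csum M ∅ (T₁ t) c * csum M (T₁ t) (T₂ t) d * csum M (T₂ t) (T₃ t) e ≠ 0 →
        (c.1 + c.2) + (d.1 + d.2) + (e.1 + e.2) =
          (u.1.1.1 + u.1.1.2) + (u.1.2.1.1 + u.1.2.1.2) + (u.1.2.2.1 + u.1.2.2.2) →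
        (c = u.1.1 ∧ d = u.1.2.1 ∧ e = u.1.2.2 ∨ ¬ (c.1 + c.2 < d.1 + d.2 ∧ d.1 + d.2 < e.1 + e.2)) →
        u = t ∨ (u.1.1.1 + u.1.1.2) + (u.1.2.1.1 + u.1.2.1.2) + (u.1.2.2.1 + u.1.2.2.2) <
          (t.1.1.1 + t.1.1.2) + (t.1.2.1.1 + t.1.2.1.2) + (t.1.2.2.1 + t.1.2.2.2) := by
      intro c d e hne hsz hord
      rcases main c d e hne with ⟨rfl, rfl, rfl⟩ | hlt
      · rcases hord with ⟨o1, o2, o3⟩ | hord
        · left
          apply Subtype.ext
          exact Prod.ext o1.symm (Prod.ext o2.symm o3.symm)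
        · exfalso
          apply hord
          omega
      · right
        omega
    by_contra hcon
    apply h
    have key : ∀ c d e : ℕ × ℕ, (c.1 + c.2) + (d.1 + d.2) + (e.1 + e.2) =
          (u.1.1.1 + u.1.1.2) + (u.1.2.1.1 + u.1.2.1.2) + (u.1.2.2.1 + u.1.2.2.2) →
        (c = u.1.1 ∧ d = u.1.2.1 ∧ e = u.1.2.2 ∨ ¬ (c.1 + c.2 < d.1 + d.2 ∧ d.1 + d.2 < e.1 + e.2)) →
        csum M ∅ (T₁ t) c * csum M (T₁ t) (T₂ t) d * csum M (T₂ t) (T₃ t) e = 0 := by
      intro c d e h1 h2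
      by_contra hne
      exact hcon (fin c d e hne h1 h2)
    have k1 := key u.1.1 u.1.2.1 u.1.2.2 rfl (Or.inl ⟨rfl, rfl, rfl⟩)
    have k2 := key u.1.1 u.1.2.2 u.1.2.1 (by omega) (Or.inr (by omega))
    have k3 := key u.1.2.1 u.1.1 u.1.2.2 (by omega) (Or.inr (by omega))
    have k4 := key u.1.2.2 u.1.1 u.1.2.1 (by omega) (Or.inr (by omega))
    have k5 := key u.1.2.1 u.1.2.2 u.1.1 (by omega) (Or.inr (by omega))
    have k6 := key u.1.2.2 u.1.2.1 u.1.1 (by omega) (Or.inr (by omega))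
    linear_combination k1 + k2 + k3 + k4 + k5 + k6

end Pool.Agent.Helper46.RankNull
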