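import Pool.Agent.Helper46.RankNull.LowerB

/-!
# Truncations of partition matroids
-/

namespace Pool.Agent.Helper46.RankNull

open Finset

variable {n : ℕ} {κ : Type*} [Fintype κ] [DecidableEq κ]

/-- members of `X` of colour `k` -/
def part (col : Fin n → κ) (X : Finset (Fin n)) (k : κ) : Finset (Fin n) := X.filter fun x => col x = k

lemma part_mono (col : Fin n → κ) {X Y : Finset (Fin n)} (h : X ⊆ Y) (k : κ) : part col X k ⊆ part col Y k :=
  Finset.filter_subset_filter _ h

lemma sum_part (col : Fin n → κ) (X : Finset (Fin n)) : ∑ k, (part col X k).card = X.card := by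
  unfold part
  exact (Finset.card_eq_sum_card_fiberwise (fun x _ => Finset.mem_coe.2 (Finset.mem_univ (col x)))).symm

/-- independence in the truncated partition matroid -/
def PIndep (col : Fin n → κ) (cap : κ → ℕ) (R : ℕ) (X : Finset (Fin n)) : Prop :=
  X.card ≤ R ∧ ∀ k, (part col X k).card ≤ cap k

lemma pindep_empty (col : Fin n → κ) (cap : κ → ℕ) (R : ℕ) : PIndep col cap R ∅ := by
  refine ⟨?_, fun k => ?_⟩
  · rw [Finset.card_empty]; exact Nat.zero_le _
  · unfold part
    rw [Finset.filter_empty, Finset.card_empty]; exact Nat.zero_le _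

lemma pindep_subset (col : Fin n → κ) (cap : κ → ℕ) (R : ℕ) :
    ∀ ⦃I J⦄, PIndep col cap R J → I ⊆ J → PIndep col cap R I := by
  rintro I J ⟨h1, h2⟩ hIJ
  exact ⟨(Finset.card_le_card hIJ).trans h1, fun k => (Finset.card_le_card (part_mono col hIJ k)).trans (h2 k)⟩

lemma pindep_aug (col : Fin n → κ) (cap : κ → ℕ) (R : ℕ) :
    ∀ ⦃I J⦄, PIndep col cap R I → PIndep col cap R J → I.card < J.card →
      ∃ e ∈ J, e ∉ I ∧ PIndep col cap R (insert e I) := by
  rintro I J ⟨hI1, hI2⟩ ⟨hJ1, hJ2⟩ hlt
  have hex : ∃ k, (part col I k).card < (part col J k).card := by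
    by_contra hcon
    push Not at hcon
    have := Finset.sum_le_sum fun k (_ : k ∈ (Finset.univ : Finset κ)) => hcon k
    rw [sum_part, sum_part] at this
    omega
  obtain ⟨k, hk⟩ := hex
  obtain ⟨e, heJ, heI⟩ := Finset.exists_mem_notMem_of_card_lt_card hk
  unfold part at heJ heI
  rw [Finset.mem_filter] at heJ heI
  have heI' : e ∉ I := fun h => heI ⟨h, heJ.2⟩
  refine ⟨e, heJ.1, heI', ?_, ?_⟩
  · rw [Finset.card_insert_of_notMem heI']
    omega
  · intro l
    unfold part
    rw [Finset.filter_insert]
    by_cases hl : col e = l
    · rw [if_pos hl]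
      have hkl : k = l := heJ.2.symm.trans hl
      subst hkl
      have h1 := Finset.card_insert_le e (I.filter fun x => col x = k)
      have h2 := hJ2 k
      unfold part at hk h2
      omega
    · rw [if_neg hl]
      exact hI2 l

/-- the truncated partition matroid -/
noncomputable def pmat (col : Fin n → κ) (cap : κ → ℕ) (R : ℕ) : Matroid (Fin n) :=
  (IndepMatroid.ofFinset Set.univ (PIndep col cap R) (pindep_empty col cap R) (pindep_subset col cap R)
    (pindep_aug col cap R) (fun I _ => Set.subset_univ (I : Set (Fin n)))).matroid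

lemma pmat_indep (col : Fin n → κ) (cap : κ → ℕ) (R : ℕ) (X : Finset (Fin n)) :
    (pmat col cap R).Indep (X : Set (Fin n)) ↔ PIndep col cap R X := by
  unfold pmat
  rw [IndepMatroid.matroid_indep_iff, IndepMatroid.ofFinset_indep]

lemma pmat_E (col : Fin n → κ) (cap : κ → ℕ) (R : ℕ) : (pmat col cap R).E = Set.univ := rfl

/-- rank formula -/
lemma pmat_eRk (col : Fin n → κ) (cap : κ → ℕ) (R : ℕ) (X : Finset (Fin n)) :
    (pmat col cap R).eRk (X : Set (Fin n)) = ((min R (∑ k, min (part col X k).card (cap k)) : ℕ) : ℕ∞) := by
  classical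
  apply le_antisymm
  · rw [Matroid.eRk_le_iff]
    intro I hIX hI
    have hfin : I.Finite := (Finset.finite_toSet X).subset hIX
    lift I to Finset (Fin n) using hfin
    rw [pmat_indep] at hI
    rw [Set.encard_coe_eq_coe_finsetCard]
    rw [Finset.coe_subset] at hIX
    have : I.card ≤ min R (∑ k, min (part col X k).card (cap k)) := by
      refine le_min hI.1 ?_
      rw [← sum_part col I]
      exact Finset.sum_le_sum fun k _ => le_min (Finset.card_le_card (part_mono col hIX k)) (hI.2 k)
    exact_mod_cast this
  · rw [Matroid.le_eRk_iff]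
    have h1 : ∀ k, ∃ Y : Finset (Fin n), Y ⊆ part col X k ∧ Y.card = min (part col X k).card (cap k) :=
      fun k => Finset.exists_subset_card_eq (min_le_left _ _)
    choose Y hY1 hY2 using h1
    set I := (Finset.univ : Finset κ).biUnion Y with hI
    have hdisj : ((Finset.univ : Finset κ) : Set κ).PairwiseDisjoint Y := by
      intro k _ l _ hkl
      rw [Function.onFun, Finset.disjoint_left]
      intro x hx hx'
      have a := hY1 k hx
      have b := hY1 l hx'
      unfold part at a b
      rw [Finset.mem_filter] at a b
      exact hkl (a.2.symm.trans b.2)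
    have hIcard : I.card = ∑ k, min (part col X k).card (cap k) := by
      rw [hI, Finset.card_biUnion hdisj]
      exact Finset.sum_congr rfl fun k _ => hY2 k
    have hIX : I ⊆ X := by
      rw [hI]
      intro x hx
      rw [Finset.mem_biUnion] at hx
      obtain ⟨k, _, hk⟩ := hx
      exact (Finset.mem_filter.1 (hY1 k hk)).1
    obtain ⟨J, hJI, hJ⟩ := Finset.exists_subset_card_eq (s := I)
      (n := min R (∑ k, min (part col X k).card (cap k))) (by rw [hIcard]; exact min_le_right _ _)
    refine ⟨J, ?_, ?_, ?_⟩
    · exact_mod_cast hJI.trans hIX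
    · rw [pmat_indep]
      refine ⟨by rw [hJ]; exact min_le_left _ _, fun k => ?_⟩
      have : part col J k ⊆ Y k := by
        intro x hx
        unfold part at hx
        rw [Finset.mem_filter] at hx
        have := hJI hx.1
        rw [hI, Finset.mem_biUnion] at this
        obtain ⟨l, _, hl⟩ := this
        have a := hY1 l hl
        unfold part at a
        rw [Finset.mem_filter] at a
        have : l = k := a.2.symm.trans hx.2
        rw [← this]
        exact hl
      calc (part col J k).card ≤ (Y k).card := Finset.card_le_card this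
        _ ≤ cap k := by rw [hY2]; exact min_le_right _ _
    · rw [Set.encard_coe_eq_coe_finsetCard, hJ]

/-- There is a colouring of `Fin n` with prescribed class sizes. -/
lemma exists_col (size : κ → ℕ) {n : ℕ} (hn : ∑ c, size c = n) :
    ∃ col : Fin n → κ, ∀ c, (part col Finset.univ c).card = size c := by
  classical
  have hcard : Fintype.card (Σ c : κ, Fin (size c)) = n := by
    rw [Fintype.card_sigma]
    simpa using hn
  let e : Fin n ≃ Σ c : κ, Fin (size c) := (Fintype.equivFinOfCardEq hcard).symm
  refine ⟨fun x => (e x).1, fun c => ?_⟩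
  have h1 : part (fun x => (e x).1) Finset.univ c =
      (Finset.univ : Finset (Fin (size c))).map ((Function.Embedding.sigmaMk c).trans e.symm.toEmbedding) := by
    ext x
    unfold part
    rw [Finset.mem_filter, Finset.mem_map]
    constructor
    · rintro ⟨-, h⟩
      subst h
      refine ⟨(e x).2, Finset.mem_univ _, ?_⟩
      show e.symm ⟨(e x).1, (e x).2⟩ = x
      simp
    · rintro ⟨a, -, rfl⟩
      refine ⟨Finset.mem_univ _, ?_⟩
      show (e (e.symm ⟨c, a⟩)).1 = c
      simp
  rw [h1, Finset.card_map, Finset.card_univ, Fintype.card_fin]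

section Struct

variable {K : ℕ} (col : Fin n → Option (Fin K)) (cap : Option (Fin K) → ℕ) (R : ℕ) (J : Fin K → ℕ)

/-- Comparable special classes lie in a common rectangle. -/
lemma struct (hcapN : cap none = R) (hFN : (part col Finset.univ none).card ≤ R)
    (hF : ∀ k, (part col Finset.univ (some k)).card ≤ cap (some k) + J k)
    (hpair : ∀ k l, k ≠ l → R ≤ cap (some k) + cap (some l))
    (S S' : Finset (Fin n)) (hSS : S ⊆ S') (c c' : ℕ × ℕ) (hc : IsCls (pmat col cap R) S c)
    (hc' : IsCls (pmat col cap R) S' c') (h1 : c'.1 ≠ R) (h2 : c.2 ≠ 0) :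
    c'.1 < R ∧ c.1 ≤ c'.1 ∧ c.2 ≤ c'.2 ∧ ∃ k, cap (some k) ≤ c.1 ∧ c'.2 ≤ J k := by
  have e1 : c.1 = min R (∑ k, min (part col S k).card (cap k)) := by
    have := hc.1
    rw [pmat_eRk] at this
    exact_mod_cast this.symm
  have e2 : c'.1 = min R (∑ k, min (part col S' k).card (cap k)) := by
    have := hc'.1
    rw [pmat_eRk] at this
    exact_mod_cast this.symm
  have s1 : c.1 + c.2 = ∑ k, (part col S k).card := by rw [sum_part, hc.2]
  have s2 : c'.1 + c'.2 = ∑ k, (part col S' k).card := by rw [sum_part, hc'.2]
  have hmono : ∀ k, (part col S k).card ≤ (part col S' k).card :=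
    fun k => Finset.card_le_card (part_mono col hSS k)
  have hlt : ∑ k, min (part col S' k).card (cap k) < R := by
    by_contra h
    push Not at h
    rw [min_eq_left h] at e2
    exact h1 e2
  rw [min_eq_right hlt.le] at e2
  have hle : ∑ k, min (part col S k).card (cap k) ≤ ∑ k, min (part col S' k).card (cap k) :=
    Finset.sum_le_sum fun k _ => min_le_min_right _ (hmono k)
  rw [min_eq_right (hle.trans hlt.le)] at e1
  have hex : ∃ k, cap k < (part col S k).card := by
    by_contra hcon
    push Not at hcon
    apply h2
    have : ∑ k, min (part col S k).card (cap k) = ∑ k, (part col S k).card :=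
      Finset.sum_congr rfl fun k _ => min_eq_left (hcon k)
    omega
  obtain ⟨k0, hk0⟩ := hex
  rcases k0 with _ | k
  · exfalso
    have := Finset.card_le_card (part_mono col (Finset.subset_univ S) none)
    omega
  have hkS' : cap (some k) < (part col S' (some k)).card := hk0.trans_le (hmono _)
  have hge : ∀ (T : Finset (Fin n)), cap (some k) < (part col T (some k)).card →
      cap (some k) ≤ ∑ l, min (part col T l).card (cap l) := by
    intro T hT
    calc cap (some k) = min (part col T (some k)).card (cap (some k)) := (min_eq_right hT.le).symm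
      _ ≤ ∑ l, min (part col T l).card (cap l) :=
        Finset.single_le_sum (f := fun l => min (part col T l).card (cap l)) (fun _ _ => Nat.zero_le _)
          (Finset.mem_univ (some k))
  -- other colours have no nullity in `S'`
  have hoth : ∀ l, l ≠ some k → (part col S' l).card ≤ cap l := by
    intro l hl
    rcases l with _ | l
    · exact ((Finset.card_le_card (part_mono col (Finset.subset_univ S') none)).trans hFN).trans hcapN.ge
    · by_contra hcon
      push Not at hcon
      have hkl : k ≠ l := fun h => hl (by rw [h])
      have h3 : ∑ m ∈ ({some k, some l} : Finset (Option (Fin K))), min (part col S' m).card (cap m) ≤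
          ∑ m, min (part col S' m).card (cap m) :=
        Finset.sum_le_sum_of_subset (Finset.subset_univ _)
      rw [Finset.sum_pair (by simpa using hkl), min_eq_right hkS'.le, min_eq_right hcon.le] at h3
      have := hpair k l hkl
      omega
  have hsumS' : ∑ l, (part col S' l).card + cap (some k) =
      ∑ l, min (part col S' l).card (cap l) + (part col S' (some k)).card := by
    rw [← Finset.add_sum_erase Finset.univ _ (Finset.mem_univ (some k)),
      ← Finset.add_sum_erase Finset.univ (fun l => min (part col S' l).card (cap l)) (Finset.mem_univ (some k))]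
    have : ∑ l ∈ Finset.univ.erase (some k), min (part col S' l).card (cap l) =
        ∑ l ∈ Finset.univ.erase (some k), (part col S' l).card :=
      Finset.sum_congr rfl fun l hl => min_eq_left (hoth l (Finset.ne_of_mem_erase hl))
    rw [this, min_eq_right hkS'.le]
    ring
  have hsumS : ∑ l, (part col S l).card + cap (some k) ≤
      ∑ l, min (part col S l).card (cap l) + (part col S (some k)).card := by
    rw [← Finset.add_sum_erase Finset.univ _ (Finset.mem_univ (some k)),
      ← Finset.add_sum_erase Finset.univ (fun l => min (part col S l).card (cap l)) (Finset.mem_univ (some k))]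
    have : ∑ l ∈ Finset.univ.erase (some k), min (part col S l).card (cap l) =
        ∑ l ∈ Finset.univ.erase (some k), (part col S l).card :=
      Finset.sum_congr rfl fun l hl => min_eq_left ((hmono l).trans (hoth l (Finset.ne_of_mem_erase hl)))
    rw [this, min_eq_right hk0.le]
    omega
  have hFk := (Finset.card_le_card (part_mono col (Finset.subset_univ S') (some k))).trans (hF k)
  have g1 := hge S hk0
  have g2 := hmono (some k)
  refine ⟨by omega, by omega, by omega, k, by omega, by omega⟩

/-- Realisation of classes. -/
lemma realise (hcapN : cap none = R) (k : Fin K) {i j : ℕ} (A B : Finset (Fin n))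
    (hA : A ⊆ part col Finset.univ (some k)) (hB : B ⊆ part col Finset.univ none)
    (hi1 : cap (some k) ≤ i) (hi2 : i ≤ R) (hAc : A.card = cap (some k) + j)
    (hBc : B.card = i - cap (some k)) : IsCls (pmat col cap R) (A ∪ B) (i, j) := by
  classical
  have hAcol : ∀ x ∈ A, col x = some k := fun x hx => (Finset.mem_filter.1 (hA hx)).2
  have hBcol : ∀ x ∈ B, col x = none := fun x hx => (Finset.mem_filter.1 (hB hx)).2
  have hpk : part col (A ∪ B) (some k) = A := by
    ext x
    unfold part
    rw [Finset.mem_filter, Finset.mem_union]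
    constructor
    · rintro ⟨h | h, h'⟩
      · exact h
      · rw [hBcol x h] at h'
        exact absurd h' (by simp)
    · intro h
      exact ⟨Or.inl h, hAcol x h⟩
  have hpn : part col (A ∪ B) none = B := by
    ext x
    unfold part
    rw [Finset.mem_filter, Finset.mem_union]
    constructor
    · rintro ⟨h | h, h'⟩
      · rw [hAcol x h] at h'
        exact absurd h' (by simp)
      · exact h
    · intro h
      exact ⟨Or.inr h, hBcol x h⟩
  have hpo : ∀ l, l ≠ some k → l ≠ none → part col (A ∪ B) l = ∅ := by
    intro l h1 h2
    rw [Finset.eq_empty_iff_forall_notMem]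
    intro x hx
    unfold part at hx
    rw [Finset.mem_filter, Finset.mem_union] at hx
    rcases hx with ⟨h | h, h'⟩
    · exact h1 (h'.symm.trans (hAcol x h))
    · exact h2 (h'.symm.trans (hBcol x h))
  have hsum : ∑ l, min (part col (A ∪ B) l).card (cap l) = i := by
    rw [← Finset.sum_subset (Finset.subset_univ ({some k, none} : Finset (Option (Fin K))))]
    · rw [Finset.sum_pair (by simp), hpk, hpn, hAc, hBc, hcapN, min_eq_right (by omega), min_eq_left (by omega)]
      omega
    · intro l _ hl
      simp only [Finset.mem_insert, Finset.mem_singleton, not_or] at hl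
      rw [hpo l hl.1 hl.2]
      simp
  refine ⟨?_, ?_⟩
  · rw [pmat_eRk, hsum, min_eq_right hi2]
  · have hdisj : Disjoint A B := by
      rw [Finset.disjoint_left]
      intro x hx hx'
      have := (hAcol x hx).symm.trans (hBcol x hx')
      exact absurd this (by simp)
    rw [Finset.card_union_of_disjoint hdisj, hAc, hBc]
    show _ = i + j
    omega

end Struct

end Pool.Agent.Helper46.RankNull
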