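import Pool.Agent.Helper46.RankNull.Defs

/-!
# Bounds for the Hilbert function of the rank-nullity ring in degrees 1, 2, 3
-/

namespace Pool.Agent.Helper46.RankNull

open MvPolynomial
open scoped Pointwise

attribute [local instance] MvPolynomial.gradedAlgebra

variable {n : ℕ}

/-- `S` has rank `c.1` and nullity `c.2`. -/
def IsCls (M : Matroid (Fin n)) (S : Finset (Fin n)) (c : ℕ × ℕ) : Prop :=
  M.eRk (S : Set (Fin n)) = (c.1 : ℕ∞) ∧ S.card = c.1 + c.2

lemma IsCls.unique {M : Matroid (Fin n)} {S : Finset (Fin n)} {c d : ℕ × ℕ} (hc : IsCls M S c)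
    (hd : IsCls M S d) : c = d := by
  have h1 : c.1 = d.1 := by
    have := hc.1.symm.trans hd.1
    exact_mod_cast this
  have h2 : c.2 = d.2 := by
    have := hc.2.symm.trans hd.2
    omega
  exact Prod.ext h1 h2

open Classical in
/-- lift of `y` to the polynomial ring -/
noncomputable def yl (M : Matroid (Fin n)) (c : ℕ × ℕ) : MvPolynomial (NSet n) ℤ :=
  ∑ S : NSet n with IsCls M S.1 c, X S

lemma mk_yl (M : Matroid (Fin n)) (c : ℕ × ℕ) : toChow n (yl M c) = y M c.1 c.2 := by
  classical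
  unfold yl y
  rw [map_sum]
  refine Finset.sum_congr ?_ fun _ _ => rfl
  ext S
  rw [Finset.mem_filter, Finset.mem_filter]
  exact Iff.rfl

lemma toChow_eq_iff (f g : MvPolynomial (NSet n) ℤ) :
    toChow n f = toChow n g ↔ f - g ∈ Ideal.span (chowRels n) :=
  Ideal.Quotient.eq

lemma yl_homog (M : Matroid (Fin n)) (c : ℕ × ℕ) : (yl M c).IsHomogeneous 1 := by
  classical
  unfold yl
  exact IsHomogeneous.sum _ _ _ fun S _ => isHomogeneous_X _ _

/-- the generators of the ideal are homogeneous -/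
lemma ideal_homog (n : ℕ) :
    (Ideal.span (chowRels n)).IsHomogeneous (homogeneousSubmodule (NSet n) ℤ) := by
  apply Ideal.homogeneous_span
  rintro f (⟨S, T, -, -, rfl⟩ | ⟨e, rfl⟩)
  · exact ⟨2, (isHomogeneous_X _ _).mul (isHomogeneous_X _ _)⟩
  · exact ⟨1, IsHomogeneous.sum _ _ _ fun S _ => isHomogeneous_X _ _⟩

lemma degPart_fg (n d : ℕ) : (AddSubgroup.toIntSubmodule (degPart n d)).FG := by
  have h : (homogeneousSubmodule (NSet n) ℤ d).FG := homogeneousSubmodule_fg (NSet n) ℤ d
  have h2 := h.map (toChow n).toIntAlgHom.toLinearMap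
  exact h2

instance piece_finite (M : Matroid (Fin n)) (d : ℕ) :
    Module.Finite ℤ (AddSubgroup.toIntSubmodule (piece M d)) := by
  have h0 : Module.Finite ℤ (AddSubgroup.toIntSubmodule (degPart n d)) := Module.Finite.iff_fg.mpr (degPart_fg n d)
  have h1 : IsNoetherian ℤ (AddSubgroup.toIntSubmodule (degPart n d)) := inferInstance
  have h : (AddSubgroup.toIntSubmodule (piece M d)).FG := by
    rw [isNoetherian_submodule] at h1
    apply h1
    intro x hx
    exact hx.2
  exact Module.Finite.iff_fg.mpr h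

lemma hilb_eq (M : Matroid (Fin n)) (d : ℕ) :
    hilb M d = Module.finrank ℤ (AddSubgroup.toIntSubmodule (piece M d)) := rfl

/-- Products of two `y`'s span the degree two part. -/
lemma piece_two_le (M : Matroid (Fin n)) :
    AddSubgroup.toIntSubmodule (piece M 2) ≤
      Submodule.span ℤ {f | ∃ c d : ℕ × ℕ, f = y M c.1 c.2 * y M d.1 d.2} := by
  classical
  rintro r ⟨hr1, hr2⟩
  -- generators
  set s : Set (Chow n) := {f | ∃ i j : ℕ, i ≤ n ∧ j ≤ n ∧ f = y M i j} with hs
  have hr0 : r ∈ Subring.closure s := hr1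
  have hr1' : r ∈ Algebra.adjoin ℤ s := by
    rw [Algebra.adjoin_int]
    exact hr0
  rw [Algebra.adjoin_eq_range] at hr1'
  obtain ⟨p, hp⟩ := hr1'
  obtain ⟨f, hf, hfr⟩ := hr2
  have hcl : ∀ z : s, ∃ c : ℕ × ℕ, (z : Chow n) = y M c.1 c.2 := by
    rintro ⟨z, i, j, -, -, rfl⟩
    exact ⟨(i, j), rfl⟩
  choose cl hcl using hcl
  -- lifted map
  set Φ : MvPolynomial s ℤ →ₐ[ℤ] MvPolynomial (NSet n) ℤ := aeval fun z => yl M (cl z) with hΦ
  set π : MvPolynomial (NSet n) ℤ →ₐ[ℤ] Chow n := (toChow n).toIntAlgHom with hπ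
  have hπf : ∀ f, π f = toChow n f := fun f => rfl
  have hcomp : π.comp Φ = aeval ((↑) : s → Chow n) := by
    apply MvPolynomial.algHom_ext
    intro z
    simp only [AlgHom.comp_apply, hΦ, aeval_X, hπf]
    exact (mk_yl M (cl z)).trans (hcl z).symm
  have hΦp : π (Φ p) = r := by
    rw [← hp]
    exact congrArg (fun φ : MvPolynomial s ℤ →ₐ[ℤ] Chow n => φ p) hcomp
  have hΦh : ∀ (q : MvPolynomial s ℤ) (m : ℕ), q.IsHomogeneous m → (Φ q).IsHomogeneous m := by
    intro q m hq
    have := hq.aeval (fun z => yl M (cl z)) (n := 1) (fun z => yl_homog M (cl z))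
    rwa [one_mul] at this
  have hc2 : homogeneousComponent 2 (Φ p) = Φ (homogeneousComponent 2 p) := by
    conv_lhs => rw [← sum_homogeneousComponent p]
    rw [map_sum, map_sum]
    by_cases h : 2 ∈ Finset.range (p.totalDegree + 1)
    · rw [Finset.sum_eq_single_of_mem 2 h]
      · exact homogeneousComponent_eq_self (hΦh _ _ (homogeneousComponent_isHomogeneous 2 p))
      · intro b _ hb
        rw [homogeneousComponent_of_mem (hΦh _ _ (homogeneousComponent_isHomogeneous b p)), if_neg (Ne.symm hb)]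
    · have h2 : homogeneousComponent 2 p = 0 := by
        apply homogeneousComponent_eq_zero
        simp only [Finset.mem_range, not_lt] at h
        omega
      rw [h2, map_zero]
      apply Finset.sum_eq_zero
      intro b hb
      have hb2 : b ≠ 2 := fun h' => h (h' ▸ hb)
      rw [homogeneousComponent_of_mem (hΦh _ _ (homogeneousComponent_isHomogeneous b p)), if_neg (Ne.symm hb2)]
  have hdiff : Φ p - f ∈ Ideal.span (chowRels n) := by
    rw [← toChow_eq_iff]
    have h1 : π (Φ p) = π f := by rw [hΦp]; exact hfr.symm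
    exact h1
  have hdiff2 : homogeneousComponent 2 (Φ p - f) ∈ Ideal.span (chowRels n) :=
    homogeneousComponent_mem_of_mem (ideal_homog n) hdiff 2
  rw [map_sub, hc2, homogeneousComponent_eq_self hf] at hdiff2
  have hr : π (Φ (homogeneousComponent 2 p)) = r := by
    rw [← toChow_eq_iff] at hdiff2
    have h1 : π (Φ (homogeneousComponent 2 p)) = π f := hdiff2
    rw [h1]; exact hfr
  rw [← hr]
  have hmem : homogeneousComponent 2 p ∈ homogeneousSubmodule s ℤ 2 := homogeneousComponent_mem 2 p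
  rw [← homogeneousSubmodule_one_pow, homogeneousSubmodule_one_eq_span_X, Submodule.span_pow] at hmem
  have hle : Submodule.span ℤ (Set.range (X : s → MvPolynomial s ℤ) ^ 2) ≤
      (Submodule.span ℤ {f | ∃ c d : ℕ × ℕ, f = y M c.1 c.2 * y M d.1 d.2}).comap
        (π.comp Φ).toLinearMap := by
    rw [Submodule.span_le]
    rintro q hq
    rw [pow_two, Set.mem_mul] at hq
    obtain ⟨_, ⟨z, rfl⟩, _, ⟨w, rfl⟩, rfl⟩ := hq
    simp only [SetLike.mem_coe, Submodule.mem_comap, AlgHom.toLinearMap_apply]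
    rw [hcomp, map_mul, aeval_X, aeval_X, hcl z, hcl w]
    exact Submodule.subset_span ⟨_, _, rfl⟩
  exact hle hmem

/-- Upper bound for `h_M(2)`: the number of pairs of classes realised by comparable sets. -/
theorem hilb_two_le (M : Matroid (Fin n)) (P : Finset ((ℕ × ℕ) × (ℕ × ℕ)))
    (hP : ∀ S S' : Finset (Fin n), S.Nonempty → S ⊆ S' → ∀ c c' : ℕ × ℕ, IsCls M S c → IsCls M S' c' →
      (c, c') ∈ P) : hilb M 2 ≤ P.card := by
  classical
  set V : Finset (Chow n) := P.image fun q => y M q.1.1 q.1.2 * y M q.2.1 q.2.2 with hV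
  have key : ∀ c c' : ℕ × ℕ, (c, c') ∉ P → (c', c) ∉ P → y M c.1 c.2 * y M c'.1 c'.2 = 0 := by
    intro c c' h1 h2
    rw [← mk_yl, ← mk_yl, ← map_mul, ← map_zero (toChow n), toChow_eq_iff, sub_zero]
    unfold yl
    rw [Finset.sum_mul_sum]
    apply Ideal.sum_mem
    intro S hS
    apply Ideal.sum_mem
    intro T hT
    rw [Finset.mem_filter] at hS hT
    apply Ideal.subset_span
    left
    refine ⟨S, T, fun h => h1 (hP _ _ S.2 h _ _ hS.2 hT.2), fun h => h2 (hP _ _ T.2 h _ _ hT.2 hS.2), rfl⟩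
  have hle : AddSubgroup.toIntSubmodule (piece M 2) ≤ Submodule.span ℤ (V : Set (Chow n)) := by
    refine (piece_two_le M).trans (Submodule.span_le.2 ?_)
    rintro _ ⟨c, c', rfl⟩
    by_cases h1 : (c, c') ∈ P
    · apply Submodule.subset_span
      rw [hV, Finset.coe_image]
      exact ⟨(c, c'), h1, rfl⟩
    · by_cases h2 : (c', c) ∈ P
      · apply Submodule.subset_span
        rw [hV, Finset.coe_image]
        exact ⟨(c', c), h2, mul_comm _ _⟩
      · rw [key c c' h1 h2]
        exact Submodule.zero_mem _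
  rw [hilb_eq]
  have hfin : Module.Finite ℤ (Submodule.span ℤ (V : Set (Chow n))) :=
    Module.Finite.iff_fg.mpr (Submodule.fg_span V.finite_toSet)
  calc Module.finrank ℤ (AddSubgroup.toIntSubmodule (piece M 2))
      ≤ Module.finrank ℤ (Submodule.span ℤ (V : Set (Chow n))) := Submodule.finrank_mono hle
    _ ≤ V.card := finrank_span_finset_le_card V
    _ ≤ P.card := Finset.card_image_le

end Pool.Agent.Helper46.RankNull
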